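import Pool.Agent.V5helper50.RC.Stm
import Pool.Agent.V5helper76.RS.MA

/-! Project RC, job MA2: the conditional mean. -/

set_option autoImplicit false

open Finset

namespace Pool.Agent.V5helper76.RC

open Pool.Agent.V5helper50.RC
open Pool.Agent.V5helper50.RS (Tk Tk_pos)
open Pool.Agent.V5helper76.RS (Tk_mono)

/-- the values at `y < x` do not change -/
theorem R_update (k : ℕ) (q t : ℕ → ℕ) (x v j u : ℕ) :
    R k q (Function.update t x v) j x u = R k q t j x u := by
  unfold R
  congr 1
  refine Finset.filter_congr fun y hy => ?_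
  rw [Fintype.mem_piFinset] at hy
  have : ∀ i, A k q (Function.update t x v) (y i) = A k q t (y i) := by
    intro i
    unfold A
    rw [Function.update_of_ne (mem_range.1 (hy i)).ne]
  simp only [this]

/-- one value of `i` -/
theorem sum_le_w (k K : ℕ) (q : ℕ → ℕ) (hq : Chain K q) (j u x i : ℕ) (hi : 1 ≤ i) (hij : i ≤ j)
    (t : ℕ → ℕ) (ht : ∀ y, t y < Tk k y) :
    ∑ v ∈ range (Tk k x), (if i * (x ^ k + q x * v) ≤ u then
      R k q t (j - i) x (u - i * (x ^ k + q x * v)) else 0) ≤ w k q t j u i x := by
  classical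
  have hQ : 1 ≤ q x := hq.pos x
  set S : ℕ → Finset (Fin (j - i) → ℕ) := fun v =>
    (Fintype.piFinset fun _ : Fin (j - i) => range x).filter (fun y =>
      ∑ l, A k q t (y l) + i * (x ^ k + q x * v) = u) with hS
  have h1 : ∀ v ∈ range (Tk k x), (if i * (x ^ k + q x * v) ≤ u then
      R k q t (j - i) x (u - i * (x ^ k + q x * v)) else 0) = (S v).card := by
    intro v _
    split_ifs with h
    · unfold R
      rw [hS]
      dsimp only
      congr 1
      refine Finset.filter_congr fun y _ => ?_
      omega
    · rw [eq_comm, card_eq_zero, hS]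
      dsimp only
      rw [filter_eq_empty_iff]
      intro y _ h2
      omega
  rw [Finset.sum_congr rfl h1, ← card_biUnion]
  · unfold w
    refine card_le_card fun y hy => ?_
    rw [mem_biUnion] at hy
    obtain ⟨v, hv, hy⟩ := hy
    rw [hS] at hy
    dsimp only at hy
    rw [mem_filter] at hy ⊢
    obtain ⟨hy1, hy2⟩ := hy
    refine ⟨hy1, ?_⟩
    rw [Fintype.mem_piFinset] at hy1
    have e1 : ∑ l, A k q t (y l) = ∑ l, y l ^ k + ∑ l, q (y l) * t (y l) := by
      unfold A
      rw [Finset.sum_add_distrib]
    have e2 : u = (∑ l, A k q t (y l) + i * x ^ k) + q x * (i * v) := by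
      rw [← hy2]; ring
    have e3 : u = (∑ l, y l ^ k + i * x ^ k) + (∑ l, q (y l) * t (y l) + q x * (i * v)) := by
      rw [e2, e1]; ring
    refine ⟨?_, ?_, ?_⟩
    · conv_rhs => rw [e2]
      rw [Nat.add_mul_mod_self_left]
    · rw [e3]; exact Nat.le_add_right _ _
    · conv_lhs => rw [e3]
      refine Nat.add_lt_add_left ?_ _
      have hT : 1 ≤ Tk k x := Tk_pos k x
      have b1 : ∑ l, q (y l) * t (y l) ≤ (j - i) * (q x * (Tk k x - 1)) := by
        calc ∑ l, q (y l) * t (y l) ≤ ∑ _l : Fin (j - i), q x * (Tk k x - 1) := by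
              refine Finset.sum_le_sum fun l _ => ?_
              have c1 := ht (y l)
              have c2 := Tk_mono k (mem_range.1 (hy1 l)).le
              refine Nat.mul_le_mul (hq.mono (mem_range.1 (hy1 l)).le) ?_
              omega
          _ = (j - i) * (q x * (Tk k x - 1)) := by simp
      have b2 : q x * (i * v) ≤ i * (q x * (Tk k x - 1)) := by
        rw [mem_range] at hv
        have c : v ≤ Tk k x - 1 := by omega
        calc q x * (i * v) = i * (q x * v) := by ring
          _ ≤ _ := Nat.mul_le_mul_left _ (Nat.mul_le_mul_left _ c)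
      have b3 : ∑ l, q (y l) * t (y l) + q x * (i * v) ≤ j * (q x * (Tk k x - 1)) := by
        calc ∑ l, q (y l) * t (y l) + q x * (i * v)
            ≤ (j - i) * (q x * (Tk k x - 1)) + i * (q x * (Tk k x - 1)) := Nat.add_le_add b1 b2
          _ = j * (q x * (Tk k x - 1)) := by rw [← Nat.add_mul]; congr 1; omega
      calc ∑ l, q (y l) * t (y l) + q x * (i * v) ≤ j * (q x * (Tk k x - 1)) := b3
        _ < j * (q x * Tk k x) := by
            refine Nat.mul_lt_mul_of_pos_left ?_ (by omega)
            refine Nat.mul_lt_mul_of_pos_left ?_ (by omega)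
            omega
        _ = j * q x * Tk k x := by ring
  · intro v _ v' _ hvv
    rw [Function.onFun, disjoint_left]
    intro y hy hy'
    rw [hS] at hy hy'
    dsimp only at hy hy'
    rw [mem_filter] at hy hy'
    apply hvv
    have h2 : i * (x ^ k + q x * v) = i * (x ^ k + q x * v') := by omega
    have h3 := Nat.eq_of_mul_eq_mul_left (by omega) h2
    have h4 : q x * v = q x * v' := by omega
    exact Nat.eq_of_mul_eq_mul_left (by omega) h4

theorem t_MA2 : S_MA2 := by
  intro k K q j u x _ hq _ t ht
  unfold m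
  refine div_le_div_of_nonneg_right ?_ (Nat.cast_nonneg _)
  unfold F
  rw [Finset.sum_comm]
  refine Finset.sum_le_sum fun i hi => ?_
  rw [mem_Icc] at hi
  rw [← Finset.mul_sum]
  refine mul_le_mul_of_nonneg_left ?_ (Nat.cast_nonneg _)
  have h := sum_le_w k K q hq j u x i hi.1 hi.2 t ht
  refine le_trans (le_of_eq ?_) (Nat.cast_le.2 h)
  push_cast
  refine Finset.sum_congr rfl fun v _ => ?_
  have e1 : A k q (Function.update t x v) x = x ^ k + q x * v := by
    unfold A
    rw [Function.update_self]
  rw [e1, R_update]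

end Pool.Agent.V5helper76.RC
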